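import Pool.Agent.helper19.QP.SpecS
import Pool.Agent.helper62.LQ.TGR
import Pool.Agent.helper72.LQ.EXP

/-!
# Project qp, row DRL: the relation `Rel`, dual form
-/

set_option autoImplicit false

open Finset

noncomputable section

namespace Pool.Agent.QP

open Pool.Agent.LQ (FF DD)
open Pool.Agent.EP (JG)

theorem DRL_lt {n i : ℕ} (h : n < i) : PowerSeries.coeff n (DD ^ i) = 0 := by
  rw [Pool.Agent.LQ.DD_def, mul_pow, PowerSeries.coeff_X_pow_mul', if_neg (by omega)]

theorem DRL_even {n i : ℕ} (hn : Odd n) (hi : ¬ Odd i) : PowerSeries.coeff n (DD ^ i) = 0 := by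
  by_contra hne
  have h := (Pool.Agent.LQ.TGR Pool.Agent.LQ.EXP).2.2.2.2.1 i n hne
  rw [Nat.odd_iff] at hn hi
  omega

theorem DRL (hKER : KER_stmt) : DRL_stmt := by
  rintro NN K ⟨hN, hK, hR⟩ M
  set B := NN.sup id + K.sup id with hB
  have hNB : ∀ n ∈ NN, n ≤ B := fun n hn => by
    have : n ≤ NN.sup id := Finset.le_sup (f := id) hn
    omega
  have hKB : ∀ k ∈ K, k ≤ B := fun k hk => by
    have : k ≤ K.sup id := Finset.le_sup (f := id) hk
    omega
  have h1 : ∀ n ∈ NN, JG jc n M =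
      ∑ i ∈ Icc 1 B, PowerSeries.coeff n (DD ^ i) * (jj ^ i).coeff M := by
    intro n hn
    rw [hKER n M (hN n hn).pos]
    refine sum_subset ?_ ?_
    · intro i hi
      rw [mem_Icc] at hi ⊢
      exact ⟨hi.1, hi.2.trans (hNB n hn)⟩
    · intro i hi hi2
      rw [mem_Icc] at hi hi2
      rw [DRL_lt (by omega), zero_mul]
  rw [sum_congr rfl h1, sum_comm]
  have h2 : ∀ i ∈ Icc 1 B, ∑ n ∈ NN, PowerSeries.coeff n (DD ^ i) * (jj ^ i).coeff M =
      if i ∈ K then (jj ^ i).coeff M else 0 := by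
    intro i _
    rw [← sum_mul]
    by_cases hi : Odd i
    · rw [hR i hi]
      split_ifs
      · rw [one_mul]
      · rw [zero_mul]
    · rw [sum_eq_zero (fun n hn => DRL_even (hN n hn) hi), zero_mul, if_neg (fun h => hi (hK i h))]
  rw [sum_congr rfl h2, ← sum_filter]
  refine sum_congr ?_ fun _ _ => rfl
  ext i
  rw [mem_filter, mem_Icc]
  constructor
  · exact fun h => h.2
  · exact fun h => ⟨⟨(hK i h).pos, hKB i h⟩, h⟩

end Pool.Agent.QP
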