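import Pool.Agent.helper19.QP.SpecS
import Pool.Agent.helper31.IG.F1
import Pool.Agent.helper7.IG.Basic

/-!
# Project qp, row FBN: Frobenius and the substitutions
-/

set_option autoImplicit false

open Finset

noncomputable section

namespace Pool.Agent.QP

open Pool.Agent.helper7.IG (kk LL sig DDk MM im2 ps Vx Nb Frame sig_coeff sig_sig)
open Pool.Agent.LQ (FF DD)

theorem FBN_im2 (F : FF) (s : ℕ) : sig (2 ^ s) 1 (im2 F) = im2 F ^ 2 ^ s := by
  have hN : (2 : ℕ) ^ s ≠ 0 := pow_ne_zero s (by norm_num)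
  rw [← map_pow, Pool.Agent.helper12.PE.pow_eq_expand F s]
  ext n
  rw [sig_coeff hN]
  rcases lt_or_ge n 0 with hn | hn
  · rw [Pool.Agent.helper7.IG.im2_coeff_neg _ n hn]
    split_ifs with h
    · rw [Pool.Agent.helper7.IG.im2_coeff_neg, mul_zero]
      exact Int.ediv_neg_of_neg_of_pos hn (by positivity)
    · rfl
  · obtain ⟨m, rfl⟩ := Int.eq_ofNat_of_zero_le hn
    rw [Pool.Agent.helper7.IG.im2_coeff_nat, PowerSeries.coeff_expand]
    have h1 : ((2 ^ s : ℕ) : ℤ) ∣ (m : ℤ) ↔ 2 ^ s ∣ m := Int.natCast_dvd_natCast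
    by_cases h : 2 ^ s ∣ m
    · rw [if_pos (h1.2 h), if_pos h, ← Int.natCast_ediv, Pool.Agent.helper7.IG.im2_coeff_nat, one_zpow,
        Units.val_one, one_mul]
    · rw [if_neg (fun h2 => h (h1.1 h2)), if_neg h, map_zero]

theorem FBN : FBN_stmt := by
  intro E s hE
  have hN : (2 : ℕ) ^ s ≠ 0 := pow_ne_zero s (by norm_num)
  have h1 : sig (2 ^ s) 1 DDk = DDk ^ 2 ^ s := by
    rw [← Pool.Agent.helper7.IG.F1_a]
    exact FBN_im2 _ s
  rw [← map_pow, ← h1, sig_sig hE hN, mul_comm E (2 ^ s)]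
  simp

end Pool.Agent.QP
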