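import Pool.Agent.helper19.QP.SpecS

/-!
# Project qp, row JGN: first properties of the coefficients `JG jc`
-/

set_option autoImplicit false

open Finset

noncomputable section

namespace Pool.Agent.QP

open Pool.Agent.EP (JG)

theorem JGN_quot (n' d : ℕ) (M' : ℤ) (hd : 0 < d) :
    (((d * n' : ℕ) : ℤ)) * ((d : ℤ) * M') / (d : ℤ) ^ 2 = (n' : ℤ) * M' := by
  have hd1 : (0 : ℤ) < (d : ℤ) := by exact_mod_cast hd
  have h2 : (((d * n' : ℕ) : ℤ)) * ((d : ℤ) * M') = (d : ℤ) ^ 2 * ((n' : ℤ) * M') := by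
    push_cast
    ring
  rw [h2, Int.mul_ediv_cancel_left _ (by positivity)]

theorem JGN_term (hJJ0 : JJ0_stmt) (j d : ℕ) (M : ℤ) (hj : 0 < j) (hM : M < 0) (hd : d ∣ j)
    (hdM : (d : ℤ) ∣ M) :
    jc ((j : ℤ) * M / (d : ℤ) ^ 2) = if d = j ∧ M = -(j : ℤ) then 1 else 0 := by
  obtain ⟨h1, h2, h3, h4, -, -⟩ := hJJ0
  obtain ⟨j', rfl⟩ := hd
  obtain ⟨M', rfl⟩ := hdM
  have hd0 : 0 < d := Nat.pos_of_mul_pos_right hj
  have hj0 : 0 < j' := Nat.pos_of_mul_pos_left hj
  have hd1 : (0 : ℤ) < (d : ℤ) := by exact_mod_cast hd0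
  have hj1 : (1 : ℤ) ≤ (j' : ℤ) := by exact_mod_cast hj0
  have hM' : M' < 0 := by
    by_contra h
    have h1 : 0 ≤ M' := by omega
    have := mul_nonneg hd1.le h1
    omega
  rw [JGN_quot j' d M' hd0]
  by_cases hc : j' = 1 ∧ M' = -1
  · obtain ⟨rfl, rfl⟩ := hc
    rw [if_pos ⟨by omega, by push_cast; ring⟩]
    have h5 : ((1 : ℕ) : ℤ) * (-1) = -((1 : ℕ) : ℤ) := by norm_num
    have h6 := h2 1
    rw [pow_one] at h6
    rw [h5]
    exact h6
  · have h3 : (j' : ℤ) * M' < -1 := by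
      by_cases hj2 : j' = 1
      · subst hj2
        have : M' ≠ -1 := fun h => hc ⟨rfl, h⟩
        push_cast
        omega
      · have h4 : (2 : ℤ) ≤ (j' : ℤ) := by
          have : 2 ≤ j' := by omega
          exact_mod_cast this
        nlinarith
    have h4 : jc ((j' : ℤ) * M') = 0 := by
      have h5 := h1 1 ((j' : ℤ) * M') (by push_cast; exact h3)
      rw [pow_one] at h5
      exact h5
    rw [h4, if_neg]
    rintro ⟨h5, h6⟩
    apply hc
    have h7 : j' = 1 := by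
      have : d * j' = d * 1 := by omega
      exact Nat.eq_of_mul_eq_mul_left hd0 this
    refine ⟨h7, ?_⟩
    subst h7
    push_cast at h6
    have : (d : ℤ) * M' = (d : ℤ) * (-1) := by linarith
    exact mul_left_cancel₀ hd1.ne' this

theorem JGN (hJJ0 : JJ0_stmt) : JGN_stmt := by
  refine ⟨?_, ?_, ?_⟩
  · intro j M hj hM
    unfold JG
    rcases eq_or_lt_of_le hM with rfl | hM
    · rw [if_neg (by omega)]
      refine Finset.sum_eq_zero fun d _ => ?_
      rw [mul_zero, Int.zero_ediv]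
      have h := hJJ0.2.2.2.1 1 le_rfl
      rw [pow_one] at h
      exact h
    have h1 : ∑ d ∈ j.divisors.filter (fun d : ℕ => (d : ℤ) ∣ M), jc ((j : ℤ) * M / (d : ℤ) ^ 2) =
        ∑ d ∈ j.divisors.filter (fun d : ℕ => (d : ℤ) ∣ M),
          if d = j ∧ M = -(j : ℤ) then (1 : ZMod 2) else 0 := by
      refine Finset.sum_congr rfl fun d hd => ?_
      rw [Finset.mem_filter, Nat.mem_divisors] at hd
      exact JGN_term hJJ0 j d M hj hM hd.1.1 hd.2
    rw [h1]
    by_cases hMj : M = -(j : ℤ)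
    · rw [if_pos hMj]
      have h2 : j ∈ j.divisors.filter (fun d : ℕ => (d : ℤ) ∣ M) := by
        rw [Finset.mem_filter, Nat.mem_divisors]
        exact ⟨⟨dvd_rfl, hj.ne'⟩, by rw [hMj]; exact (dvd_neg).2 dvd_rfl⟩
      rw [Finset.sum_eq_single_of_mem j h2]
      · rw [if_pos ⟨rfl, hMj⟩]
      · intro d _ hdj
        rw [if_neg (fun h => hdj h.1)]
    · rw [if_neg hMj]
      refine Finset.sum_eq_zero fun d _ => ?_
      rw [if_neg (fun h => hMj h.2)]
  · intro n m hn hm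
    unfold JG
    have h1 : n.divisors.filter (fun d : ℕ => (d : ℤ) ∣ (m : ℤ)) =
        m.divisors.filter (fun d : ℕ => (d : ℤ) ∣ (n : ℤ)) := by
      ext d
      simp only [mem_filter, Nat.mem_divisors, Int.natCast_dvd_natCast]
      constructor
      · rintro ⟨⟨h1, -⟩, h2⟩
        exact ⟨⟨h2, hm.ne'⟩, h1⟩
      · rintro ⟨⟨h1, -⟩, h2⟩
        exact ⟨⟨h2, hn.ne'⟩, h1⟩
    rw [h1]
    refine Finset.sum_congr rfl fun d _ => ?_
    rw [mul_comm (n : ℤ) (m : ℤ)]
  · intro n M hn hM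
    unfold JG
    refine Finset.sum_eq_zero fun d hd => ?_
    rw [mem_filter, Nat.mem_divisors] at hd
    obtain ⟨⟨⟨n', rfl⟩, h0⟩, ⟨M', rfl⟩⟩ := hd
    have hd0 : 0 < d := Nat.pos_of_ne_zero (by rintro rfl; simp at h0)
    rw [JGN_quot n' d M' hd0]
    have hdo : Odd d := (Nat.odd_mul.1 hn).1
    have hM' : Even M' := by
      rw [Int.even_mul] at hM
      rcases hM with h | h
      · exfalso
        rw [Int.even_coe_nat] at h
        exact (Nat.not_even_iff_odd.2 hdo) h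
      · exact h
    by_contra hne
    have h5 := hJJ0.2.2.1 1 ((n' : ℤ) * M') (by rw [pow_one]; exact hne)
    have h6 : Even ((n' : ℤ) * M') := hM'.mul_left _
    rw [Int.even_iff] at h6
    push_cast at h5
    omega

end Pool.Agent.QP
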