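import Pool.Agent.helper19.QP.SpecS

/-!
# Project qp, row RLX: a set NN for every set K of odd numbers
-/

set_option autoImplicit false

open Finset

noncomputable section

namespace Pool.Agent.QP

open Pool.Agent.LQ (FF DD)

theorem RLX_lt {n i : ℕ} (h : n < i) : PowerSeries.coeff n (DD ^ i) = 0 := by
  rw [Pool.Agent.LQ.DD_def, mul_pow, PowerSeries.coeff_X_pow_mul', if_neg (by omega)]

theorem RLX_self (i : ℕ) : PowerSeries.coeff i (DD ^ i) = 1 := by
  rw [Pool.Agent.LQ.DD_def, mul_pow, PowerSeries.coeff_X_pow_mul', if_pos le_rfl, Nat.sub_self]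
  rw [PowerSeries.coeff_zero_eq_constantCoeff_apply, map_pow, map_pow]
  have h : PowerSeries.constantCoeff Pool.Agent.helper81.EE = 1 := by
    rw [← PowerSeries.coeff_zero_eq_constantCoeff_apply]
    exact Pool.Agent.helper12.PE.coeff_EE_pentagonal 0
  rw [h, one_pow, one_pow]

theorem RLX_zmod (a b : ZMod 2) (h : a ≠ b) : 1 + a = b := by
  revert a b
  decide

theorem RLX_step (K : Finset ℕ) (M : ℕ) (hM : ∀ k ∈ K, k < M) (j : ℕ) (hj : j ≤ M) :
    ∃ NN : Finset ℕ, (∀ n ∈ NN, Odd n ∧ M - j ≤ n) ∧ ∀ i : ℕ, Odd i → M - j ≤ i →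
      ∑ n ∈ NN, PowerSeries.coeff n (DD ^ i) = if i ∈ K then 1 else 0 := by
  induction j with
  | zero =>
    refine ⟨∅, ?_, ?_⟩
    · intro n hn
      simp at hn
    · intro i _ hi
      rw [sum_empty, if_neg]
      intro hK
      have := hM i hK
      omega
  | succ j ih =>
    obtain ⟨NN, h1, h2⟩ := ih (by omega)
    by_cases hgood : Odd (M - (j + 1)) ∧
        ∑ n ∈ NN, PowerSeries.coeff n (DD ^ (M - (j + 1))) ≠ if M - (j + 1) ∈ K then 1 else 0
    · obtain ⟨hodd, hne⟩ := hgood
      have hnot : M - (j + 1) ∉ NN := by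
        intro h
        have := (h1 _ h).2
        omega
      refine ⟨insert (M - (j + 1)) NN, ?_, ?_⟩
      · intro n hn
        rw [mem_insert] at hn
        rcases hn with rfl | hn
        · exact ⟨hodd, le_rfl⟩
        · exact ⟨(h1 n hn).1, by have := (h1 n hn).2; omega⟩
      · intro i hi hle
        rw [sum_insert hnot]
        rcases eq_or_lt_of_le hle with rfl | hlt
        · rw [RLX_self]
          exact RLX_zmod _ _ hne
        · rw [RLX_lt hlt, zero_add]
          exact h2 i hi (by omega)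
    · refine ⟨NN, ?_, ?_⟩
      · intro n hn
        exact ⟨(h1 n hn).1, by have := (h1 n hn).2; omega⟩
      · intro i hi hle
        rcases eq_or_lt_of_le hle with rfl | hlt
        · by_contra hne
          exact hgood ⟨hi, hne⟩
        · exact h2 i hi (by omega)

theorem RLX : RLX_stmt := by
  intro K hK
  obtain ⟨NN, h1, h2⟩ := RLX_step K (K.sup id + 1)
    (fun k hk => Nat.lt_succ_of_le (Finset.le_sup (f := id) hk)) (K.sup id + 1) le_rfl
  refine ⟨NN, fun n hn => (h1 n hn).1, hK, fun i hi => h2 i hi (by omega)⟩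

end Pool.Agent.QP
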