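import Pool.Agent.helper19.QP.SpecS

/-!
# Project qp, row SGB: Selberg's identity, the negative part
-/

set_option autoImplicit false

open Finset

noncomputable section

namespace Pool.Agent.QP

theorem SGB_pair (g e O E u m : ℕ) (he : Odd e) (hE : Even E) (h1 : g + e = u)
    (h2 : (g : ℤ) - e = m ∨ (e : ℤ) - g = m) (h3 : O + E = u)
    (h4 : (E : ℤ) - O = m ∨ (O : ℤ) - E = m) : e = O ∧ g = E := by
  obtain ⟨k, rfl⟩ := he
  obtain ⟨r, rfl⟩ := hE
  rcases h2 with h2 | h2 <;> rcases h4 with h4 | h4 <;> push_cast at h2 h4 <;> omega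

theorem SGB_sq (g e m u K : ℕ) (h2 : (g : ℤ) - e = m ∨ (e : ℤ) - g = m) (hge : g * e = K)
    (hu : u ^ 2 = m ^ 2 + 4 * K) : g + e = u := by
  have h1 : ((g : ℤ) + e) ^ 2 = (u : ℤ) ^ 2 := by
    have h3 : (m : ℤ) ^ 2 = ((g : ℤ) - e) ^ 2 := by
      rcases h2 with h | h
      · rw [h]
      · rw [← h]
        ring
    have h4 : (u : ℤ) ^ 2 = (m : ℤ) ^ 2 + 4 * K := by exact_mod_cast hu
    have h5 : (g : ℤ) * e = K := by exact_mod_cast hge
    rw [h4, h3, ← h5]
    ring
  have h2 : (g + e) ^ 2 = u ^ 2 := by exact_mod_cast h1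
  exact Nat.pow_left_injective (by norm_num : 2 ≠ 0) h2

theorem SGB_OE (u m K : ℕ) (hu : Odd u) (hm : Odd m) (h : u ^ 2 = m ^ 2 + 4 * K) :
    ∃ O E : ℕ, Odd O ∧ Even E ∧ O + E = u ∧ ((E : ℤ) - O = m ∨ (O : ℤ) - E = m) ∧ O * E = K := by
  have hle : m ≤ u := by
    have : m ^ 2 ≤ u ^ 2 := by omega
    exact (Nat.pow_le_pow_iff_left (by norm_num)).1 this
  obtain ⟨t, rfl⟩ : ∃ t, u = m + 2 * t := by
    refine ⟨(u - m) / 2, ?_⟩
    rw [Nat.odd_iff] at hu hm
    omega
  have hK : t * (m + t) = K := by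
    have : (m + 2 * t) ^ 2 = m ^ 2 + 4 * (t * (m + t)) := by ring
    omega
  rcases Nat.even_or_odd t with ht | ht
  · refine ⟨m + t, t, hm.add_even ht, ht, by ring, Or.inr (by push_cast; ring), by rw [← hK, mul_comm]⟩
  · refine ⟨t, m + t, ht, hm.add_odd ht, by ring, Or.inl (by push_cast; ring), hK⟩

theorem SGB_cop {u m K : ℕ} (h : u ^ 2 = m ^ 2 + 24 * K) (hm : m.Coprime 6) : u.Coprime 6 := by
  have h1 : (m ^ 2).Coprime 6 := hm.pow_left 2
  have h2 : (m ^ 2 + 24 * K).Coprime 6 := by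
    have h3 : m ^ 2 + 24 * K = m ^ 2 + 6 * (4 * K) := by ring
    rw [h3, Nat.coprime_add_mul_left_left]
    exact h1
  rw [← h] at h2
  exact (Nat.coprime_pow_left_iff (by norm_num) u 6).1 h2

theorem SGB : SGB_stmt := by
  classical
  intro a n m hn hm
  have hn0 : n ≠ 0 := by rintro rfl; exact absurd hn (by decide)
  have hmo : Odd m := by
    rw [← Nat.not_even_iff_odd, even_iff_two_dvd]
    intro h
    have := Nat.Coprime.eq_one_of_dvd (hm.coprime_dvd_right (by norm_num : 2 ∣ 6)).symm h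
    omega
  -- the products
  have hp1 : ∀ e ∈ n.divisors, 6 * 2 ^ a * (n / e) * (1 * e) = 6 * (2 ^ a * n) := by
    intro e he
    have : n / e * e = n := Nat.div_mul_cancel (Nat.dvd_of_mem_divisors he)
    calc 6 * 2 ^ a * (n / e) * (1 * e) = 6 * (2 ^ a * (n / e * e)) := by ring
      _ = _ := by rw [this]
  have hp2 : ∀ e ∈ n.divisors, 2 * 2 ^ a * (n / e) * (3 * e) = 6 * (2 ^ a * n) := by
    intro e he
    have : n / e * e = n := Nat.div_mul_cancel (Nat.dvd_of_mem_divisors he)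
    calc 2 * 2 ^ a * (n / e) * (3 * e) = 6 * (2 ^ a * (n / e * e)) := by ring
      _ = _ := by rw [this]
  have hodd : ∀ e ∈ n.divisors, Odd e := by
    intro e he
    obtain ⟨k, hk⟩ := Nat.dvd_of_mem_divisors he
    rw [hk] at hn
    exact (Nat.odd_mul.1 hn).1
  by_cases hex : ∃ u : ℕ, u.Coprime 6 ∧ u ^ 2 = m ^ 2 + 24 * (2 ^ a * n)
  · rw [if_pos hex]
    obtain ⟨u, hu6, hu⟩ := hex
    have huo : Odd u := by
      rw [← Nat.not_even_iff_odd, even_iff_two_dvd]
      intro h
      have := Nat.Coprime.eq_one_of_dvd (hu6.coprime_dvd_right (by norm_num : 2 ∣ 6)).symm h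
      omega
    have hu3 : ¬ 3 ∣ u := by
      intro h
      have := Nat.Coprime.eq_one_of_dvd (hu6.coprime_dvd_right (by norm_num : 3 ∣ 6)).symm h
      omega
    have hu' : u ^ 2 = m ^ 2 + 4 * (6 * (2 ^ a * n)) := by rw [hu]; ring
    obtain ⟨O, E, hO, hE, hOE, hd, hP⟩ := SGB_OE u m _ huo hmo hu'
    have hS1 : {e ∈ n.divisors | ((6 * 2 ^ a * (n / e) : ℕ) : ℤ) - ((1 * e : ℕ) : ℤ) = m ∨
        ((1 * e : ℕ) : ℤ) - ((6 * 2 ^ a * (n / e) : ℕ) : ℤ) = m} =
        {e ∈ n.divisors | e = O ∧ 6 * 2 ^ a * (n / e) = E} := by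
      refine filter_congr fun e he => ?_
      constructor
      · intro h
        have h1 := SGB_sq _ _ m u _ h (hp1 e he) hu'
        have h2 := SGB_pair _ _ O E u m (by rw [one_mul]; exact hodd e he) hE h1 h hOE hd
        rw [one_mul] at h2
        exact h2
      · rintro ⟨h1, h2⟩
        rw [h2, one_mul, h1]
        exact hd
    have hS2 : {e ∈ n.divisors | ((2 * 2 ^ a * (n / e) : ℕ) : ℤ) - ((3 * e : ℕ) : ℤ) = m ∨
        ((3 * e : ℕ) : ℤ) - ((2 * 2 ^ a * (n / e) : ℕ) : ℤ) = m} =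
        {e ∈ n.divisors | 3 * e = O ∧ 2 * 2 ^ a * (n / e) = E} := by
      refine filter_congr fun e he => ?_
      constructor
      · intro h
        have h1 := SGB_sq _ _ m u _ h (hp2 e he) hu'
        exact SGB_pair _ _ O E u m (Nat.odd_mul.2 ⟨by decide, hodd e he⟩) hE h1 h hOE hd
      · rintro ⟨h1, h2⟩
        rw [h2, h1]
        exact hd
    unfold PQ
    rw [hS1, hS2]
    have hO2 : Nat.Coprime O (2 ^ (a + 1)) :=
      Nat.Coprime.pow_right _ (Nat.coprime_two_right.2 hO)
    by_cases h3 : 3 ∣ O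
    · obtain ⟨O', rfl⟩ := h3
      have hO' : Nat.Coprime O' (2 ^ (a + 1)) := hO2.coprime_mul_left
      have hP' : O' * E = 2 ^ (a + 1) * n := by
        have : 3 * (O' * E) = 3 * (2 ^ (a + 1) * n) := by
          rw [← mul_assoc, hP, pow_succ]
          ring
        omega
      have hdv : O' ∣ n := by
        have : O' ∣ 2 ^ (a + 1) * n := ⟨E, hP'.symm⟩
        exact hO'.dvd_of_dvd_mul_left this
      obtain ⟨f, rfl⟩ := hdv
      have hO'0 : 0 < O' := Nat.pos_of_ne_zero (by rintro rfl; simp at hn0)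
      have hE' : E = 2 * 2 ^ a * f := by
        have : O' * E = O' * (2 * 2 ^ a * f) := by
          rw [hP', pow_succ]
          ring
        exact Nat.eq_of_mul_eq_mul_left hO'0 this
      have e1 : {e ∈ (O' * f).divisors | e = 3 * O' ∧ 6 * 2 ^ a * (O' * f / e) = E} = ∅ := by
        refine filter_eq_empty_iff.2 ?_
        rintro e - ⟨-, h⟩
        apply hu3
        rw [← hOE, ← h]
        exact (dvd_mul_right 3 O').add (Dvd.dvd.mul_right (Dvd.dvd.mul_right (by norm_num) _) _)
      have e2 : {e ∈ (O' * f).divisors | 3 * e = 3 * O' ∧ 2 * 2 ^ a * (O' * f / e) = E} = {O'} := by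
        ext e
        rw [mem_filter, mem_singleton, Nat.mem_divisors]
        constructor
        · rintro ⟨-, h, -⟩
          omega
        · rintro rfl
          refine ⟨⟨dvd_mul_right _ _, hn0⟩, rfl, ?_⟩
          rw [Nat.mul_div_cancel_left _ hO'0, hE']
      rw [e1, e2, card_empty, card_singleton]
      simp
    · have hO6 : Nat.Coprime O (2 ^ (a + 1) * 3) := by
        refine Nat.Coprime.mul_right hO2 ?_
        exact ((Nat.Prime.coprime_iff_not_dvd Nat.prime_three).2 h3).symm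
      have hP' : O * E = 2 ^ (a + 1) * 3 * n := by
        rw [hP, pow_succ]
        ring
      have hdv : O ∣ n := by
        have : O ∣ 2 ^ (a + 1) * 3 * n := ⟨E, hP'.symm⟩
        exact hO6.dvd_of_dvd_mul_left this
      obtain ⟨f, rfl⟩ := hdv
      have hO'0 : 0 < O := Nat.pos_of_ne_zero (by rintro rfl; simp at hn0)
      have hE' : E = 6 * 2 ^ a * f := by
        have : O * E = O * (6 * 2 ^ a * f) := by
          rw [hP', pow_succ]
          ring
        exact Nat.eq_of_mul_eq_mul_left hO'0 this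
      have e1 : {e ∈ (O * f).divisors | e = O ∧ 6 * 2 ^ a * (O * f / e) = E} = {O} := by
        ext e
        rw [mem_filter, mem_singleton, Nat.mem_divisors]
        constructor
        · rintro ⟨-, h, -⟩
          exact h
        · rintro rfl
          refine ⟨⟨dvd_mul_right _ _, hn0⟩, rfl, ?_⟩
          rw [Nat.mul_div_cancel_left _ hO'0, hE']
      have e2 : {e ∈ (O * f).divisors | 3 * e = O ∧ 2 * 2 ^ a * (O * f / e) = E} = ∅ := by
        refine filter_eq_empty_iff.2 ?_
        rintro e - ⟨h, -⟩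
        exact h3 ⟨e, h.symm⟩
      rw [e1, e2, card_empty, card_singleton]
      simp
  · rw [if_neg hex]
    have key : ∀ g e : ℕ, ((g : ℤ) - e = m ∨ (e : ℤ) - g = m) → g * e = 6 * (2 ^ a * n) → False := by
      intro g e h1 h2
      apply hex
      have h3 : (g + e) ^ 2 = m ^ 2 + 24 * (2 ^ a * n) := by
        have h5 : ((g : ℤ) + e) ^ 2 = (m : ℤ) ^ 2 + 24 * (2 ^ a * n) := by
          have h3 : (m : ℤ) ^ 2 = ((g : ℤ) - e) ^ 2 := by
            rcases h1 with h | h
            · rw [h]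
            · rw [← h]
              ring
          have h6 : (g : ℤ) * e = 6 * (2 ^ a * n) := by exact_mod_cast h2
          rw [h3]
          linear_combination 4 * h6
        exact_mod_cast h5
      exact ⟨g + e, SGB_cop h3 hm, h3⟩
    unfold PQ
    rw [filter_eq_empty_iff.2, filter_eq_empty_iff.2, card_empty]
    · simp
    · intro e he h
      exact key _ _ h (hp2 e he)
    · intro e he h
      exact key _ _ h (hp1 e he)

end Pool.Agent.QP
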