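import Pool.Agent.helper19.QP.SpecS
import Pool.Agent.helper7.IG.Basic

/-!
# Project qp, row SEL: the series `psi f` is a constant plus a sum of kernels
-/

set_option autoImplicit false

open Finset

noncomputable section

namespace Pool.Agent.QP

open Pool.Agent.helper7.IG (kk LL sig DDk MM im2 ps Vx Nb Frame sig_coeff)
open Pool.Agent.EP (KK ww vvx WW JG ac pp IsT)

/-- The term of the prime-field sum. -/
def SEL_W (n a m : ℕ) : ZMod 2 :=
  KQ (fun L => JG jc n L) (6 * 2 ^ a) 1 m + KQ (fun L => JG jc n L) (2 * 2 ^ a) 3 m +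
    PQ n (6 * 2 ^ a) 1 m + PQ n (2 * 2 ^ a) 3 m

theorem SEL_XI (hCCF : CCF_stmt) (hFBN : FBN_stmt) (N n a : ℕ) (hn : Odd n) (hN : Odd N)
    (hnN : n ∣ N) (l : ℤ) (hl : l ≠ 0) :
    (HC n N (fun e ζ => kap (sig e ζ DDk) (sig (3 * N) 1 DDk ^ 2 ^ (a + 1))) +
     HC n (3 * N) (fun e ζ => kap (sig e ζ DDk) (sig N 1 DDk ^ 2 ^ (a + 1)))).coeff l =
    if 0 < l ∧ (N : ℤ) ∣ l then
      algebraMap (ZMod 2) kk (CP n (6 * 2 ^ a) 1 (l / N).toNat + CP n (2 * 2 ^ a) 3 (l / N).toNat)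
    else 0 := by
  have hN0 : N ≠ 0 := by rintro rfl; exact absurd hN (by decide)
  have h1 : sig (3 * N) 1 DDk ^ 2 ^ (a + 1) = sig ((6 * 2 ^ a) * N) 1 DDk := by
    rw [← hFBN (3 * N) (a + 1) (by omega)]
    have : 2 ^ (a + 1) * (3 * N) = 6 * 2 ^ a * N := by rw [pow_succ]; ring
    rw [this]
  have h2 : sig N 1 DDk ^ 2 ^ (a + 1) = sig ((2 * 2 ^ a) * N) 1 DDk := by
    rw [← hFBN N (a + 1) hN0]
    have : 2 ^ (a + 1) * N = 2 * 2 ^ a * N := by rw [pow_succ]; ring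
    rw [this]
  have hpos : 0 < 2 ^ a := by positivity
  obtain ⟨c1, hc1⟩ := hCCF n N (6 * 2 ^ a) 1 hn hN hnN (Even.mul_right (by decide) _) (by omega)
    (by decide)
  obtain ⟨c2, hc2⟩ := hCCF n N (2 * 2 ^ a) 3 hn hN hnN (Even.mul_right (by decide) _) (by omega)
    (by decide)
  rw [h1, h2, HahnSeries.coeff_add]
  have h3 := hc1 l
  have h4 := hc2 l
  rw [one_mul, if_neg hl] at h3
  rw [if_neg hl] at h4
  rw [h3, h4]
  split_ifs
  · rw [map_add]
  · rw [add_zero]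

theorem SEL_psi (hFCO : FCO_stmt) (hSGZ : SGZ_stmt) (hLAM : LAM_stmt) (A : ℕ) (NN K : ℕ → Finset ℕ)
    (hR : ∀ a < A, Rel (NN a) (K a)) (l : ℕ) (hl : 0 < l) :
    ∑ m ∈ l.divisors with m.Coprime 6, (fK A K).coeff ((m : ℤ) ^ 2) =
      ∑ a ∈ range A, ∑ n ∈ NN a, (CP n (6 * 2 ^ a) 1 l + CP n (2 * 2 ^ a) 3 l) := by
  have h1 : ∀ m ∈ l.divisors.filter (fun m => m.Coprime 6), (fK A K).coeff ((m : ℤ) ^ 2) =
      ∑ a ∈ range A, ∑ n ∈ NN a, SEL_W n a m := by
    intro m hm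
    rw [mem_filter] at hm
    unfold fK
    rw [HahnSeries.coeff_sum]
    refine sum_congr rfl fun a ha => ?_
    rw [mem_range] at ha
    exact hFCO (NN a) (K a) a m (hR a ha) hm.2
  rw [sum_congr rfl h1, sum_comm]
  refine sum_congr rfl fun a ha => ?_
  rw [mem_range] at ha
  rw [sum_comm]
  refine sum_congr rfl fun n hn => ?_
  have hno : Odd n := (hR a ha).1 n hn
  have h2 : ∑ m ∈ l.divisors.filter (fun m => m.Coprime 6), SEL_W n a m =
      ∑ m ∈ l.divisors, SEL_W n a m := by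
    refine sum_subset (filter_subset _ _) ?_
    intro m hm hm2
    have hm3 : ¬ m.Coprime 6 := fun h => hm2 (mem_filter.2 ⟨hm, h⟩)
    exact hSGZ a n m hno (Nat.pos_of_mem_divisors hm) hm3
  have hpos : 0 < 2 ^ a := by positivity
  rw [h2, ← hLAM n (6 * 2 ^ a) 1 l hno (Even.mul_right (by decide) _) (by omega) (by decide) hl,
    ← hLAM n (2 * 2 ^ a) 3 l hno (Even.mul_right (by decide) _) (by omega) (by decide) hl,
    ← sum_add_distrib]
  refine sum_congr rfl fun m _ => ?_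
  unfold SEL_W
  ring

theorem SEL (hFCO : FCO_stmt) (hSGZ : SGZ_stmt) (hLAM : LAM_stmt) (hCCF : CCF_stmt)
    (hFBN : FBN_stmt) : SEL_stmt := by
  intro N A NN K hN hR hd
  have hN0 : N ≠ 0 := by rintro rfl; exact absurd hN (by decide)
  refine ⟨(sig N 1 (psi (fK A K))).coeff 0 - (XI N A NN).coeff 0, ?_⟩
  ext l
  rw [HahnSeries.coeff_add]
  have hC : ∀ c : kk, (algebraMap kk LL c).coeff l = if l = 0 then c else 0 := by
    intro c
    have h0 : algebraMap kk LL c = HahnSeries.C c := rfl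
    rw [h0, HahnSeries.C_apply, HahnSeries.coeff_single]
    split_ifs <;> rfl
  rw [hC]
  by_cases hl : l = 0
  · subst hl
    rw [if_pos rfl, sub_add_cancel]
  rw [if_neg hl, zero_add]
  unfold XI
  rw [HahnSeries.coeff_sum]
  have h1 : ∀ a ∈ range A, (∑ n ∈ NN a,
      (HC n N (fun e ζ => kap (sig e ζ DDk) (sig (3 * N) 1 DDk ^ 2 ^ (a + 1))) +
       HC n (3 * N) (fun e ζ => kap (sig e ζ DDk) (sig N 1 DDk ^ 2 ^ (a + 1))))).coeff l =
      ∑ n ∈ NN a, if 0 < l ∧ (N : ℤ) ∣ l then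
        algebraMap (ZMod 2) kk (CP n (6 * 2 ^ a) 1 (l / N).toNat + CP n (2 * 2 ^ a) 3 (l / N).toNat)
      else 0 := by
    intro a ha
    rw [mem_range] at ha
    rw [HahnSeries.coeff_sum]
    exact sum_congr rfl fun n hn =>
      SEL_XI hCCF hFBN N n a ((hR a ha).1 n hn) hN (hd a ha n hn) l hl
  rw [sum_congr rfl h1, sig_coeff hN0]
  have hNpos : (0 : ℤ) < N := by omega
  by_cases hdv : (N : ℤ) ∣ l
  · rw [if_pos hdv]
    obtain ⟨l', rfl⟩ := hdv
    rw [Int.mul_ediv_cancel_left _ hNpos.ne', one_zpow, Units.val_one, one_mul]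
    by_cases hl' : 0 < l'
    · obtain ⟨k, rfl⟩ := Int.eq_ofNat_of_zero_le hl'.le
      have hk : 0 < k := by omega
      have hcond : (0 : ℤ) < N * (k : ℤ) ∧ (N : ℤ) ∣ N * (k : ℤ) :=
        ⟨mul_pos hNpos hl', dvd_mul_right _ _⟩
      unfold psi
      rw [Pool.Agent.helper7.IG.ps_coeff_nat, SEL_psi hFCO hSGZ hLAM A NN K hR k hk, map_sum]
      refine sum_congr rfl fun a _ => ?_
      rw [map_sum]
      refine sum_congr rfl fun n _ => ?_
      rw [if_pos hcond, Int.toNat_natCast]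
    · have hl0 : l' < 0 := by
        rcases lt_trichotomy l' 0 with h | h | h
        · exact h
        · subst h
          exact absurd (mul_zero _) hl
        · exact absurd h hl'
      have hcond : ¬ ((0 : ℤ) < N * l' ∧ (N : ℤ) ∣ N * l') := by
        rintro ⟨h, -⟩
        have := mul_neg_of_pos_of_neg hNpos hl0
        omega
      unfold psi
      rw [Pool.Agent.helper7.IG.ps_coeff_neg _ _ hl0]
      symm
      refine sum_eq_zero fun a _ => sum_eq_zero fun n _ => ?_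
      rw [if_neg hcond]
  · rw [if_neg hdv]
    symm
    refine sum_eq_zero fun a _ => sum_eq_zero fun n _ => ?_
    rw [if_neg (fun h => hdv h.2)]

end Pool.Agent.QP
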